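import Pool.Agent.Lib.MP_e1f7e2_al.SU.Iface

set_option autoImplicit false

/-!
Project SU3 (MP_e1f7e2_al): module SU, the Shestakov-Umirbaev inequality for generic weights.
-/

open MvPolynomial

namespace Pool.Agent.Lib.MP_e1f7e2_al.SU.H98

section

variable {K : Type*} [Field K] {w : Fin 3 → ℝ}

/-! ### univariate polynomials: multiplicity of a root -/

/-- `φ = (X - c)^n u`, `u(c) ≠ 0` -/
def Mu (c : K) (n : ℕ) (φ : Polynomial K) : Prop :=
  ∃ u : Polynomial K, φ = (Polynomial.X - Polynomial.C c) ^ n * u ∧ u.eval c ≠ 0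

lemma Mu.ne_zero {c : K} {n : ℕ} {φ : Polynomial K} (h : Mu c n φ) : φ ≠ 0 := by
  obtain ⟨u, rfl, hu⟩ := h
  refine mul_ne_zero (pow_ne_zero _ (Polynomial.X_sub_C_ne_zero c)) ?_
  rintro rfl
  simp at hu

lemma Mu.eval_ne {c : K} {φ : Polynomial K} (h : Mu c 0 φ) : φ.eval c ≠ 0 := by
  obtain ⟨u, rfl, hu⟩ := h
  simpa using hu

lemma exists_mu (c : K) {φ : Polynomial K} (h : φ ≠ 0) : ∃ n, Mu c n φ := by
  obtain ⟨u, h1, h2⟩ := Polynomial.exists_eq_pow_rootMultiplicity_mul_and_not_dvd φ h c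
  refine ⟨_, u, h1, ?_⟩
  intro h3
  exact h2 (Polynomial.dvd_iff_isRoot.mpr h3)

lemma Mu.deriv [CharZero K] {c : K} {n : ℕ} {φ : Polynomial K} (h : Mu c (n + 1) φ) :
    Mu c n (Polynomial.derivative φ) := by
  obtain ⟨u, rfl, hu⟩ := h
  refine ⟨Polynomial.C ((n : K) + 1) * u +
    (Polynomial.X - Polynomial.C c) * Polynomial.derivative u, ?_, ?_⟩
  · rw [Polynomial.derivative_mul, Polynomial.derivative_X_sub_C_pow]
    simp only [Nat.add_sub_cancel, Nat.cast_add, Nat.cast_one, map_add, map_natCast, map_one]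
    ring
  · simp only [Polynomial.eval_add, Polynomial.eval_mul, Polynomial.eval_C, Polynomial.eval_sub,
      Polynomial.eval_X, sub_self, zero_mul, add_zero]
    exact mul_ne_zero (Nat.cast_add_one_ne_zero n) hu

lemma Mu.comb [CharZero K] {c : K} {n : ℕ} {φ : Polynomial K} (h : Mu c (n + 1) φ) (hc : c ≠ 0)
    (s : K) {r : K} (hr : r ≠ 0) :
    Mu c n (Polynomial.C s * φ + Polynomial.C r * (Polynomial.X * Polynomial.derivative φ)) := by
  obtain ⟨u, rfl, hu⟩ := h
  refine ⟨Polynomial.C s * ((Polynomial.X - Polynomial.C c) * u) + Polynomial.C r *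
    (Polynomial.X * (Polynomial.C ((n : K) + 1) * u +
    (Polynomial.X - Polynomial.C c) * Polynomial.derivative u)), ?_, ?_⟩
  · rw [Polynomial.derivative_mul, Polynomial.derivative_X_sub_C_pow]
    simp only [Nat.add_sub_cancel, Nat.cast_add, Nat.cast_one, map_add, map_natCast, map_one]
    ring
  · simp only [Polynomial.eval_add, Polynomial.eval_mul, Polynomial.eval_C, Polynomial.eval_sub,
      Polynomial.eval_X, sub_self, zero_mul, add_zero, mul_zero, zero_add]
    exact mul_ne_zero hr (mul_ne_zero hc (mul_ne_zero (Nat.cast_add_one_ne_zero n) hu))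

lemma Mu.of_C_mul {c : K} {n : ℕ} {φ : Polynomial K} {r : K} (hr : r ≠ 0)
    (h : Mu c n (Polynomial.C r * φ)) : Mu c n φ := by
  obtain ⟨u, h1, hu⟩ := h
  refine ⟨Polynomial.C r⁻¹ * u, ?_, ?_⟩
  · have : φ = Polynomial.C r⁻¹ * (Polynomial.C r * φ) := by
      rw [← mul_assoc, ← Polynomial.C_mul, inv_mul_cancel₀ hr, Polynomial.C_1, one_mul]
    rw [this, h1]; ring
  · simp only [Polynomial.eval_mul, Polynomial.eval_C]
    exact mul_ne_zero (inv_ne_zero hr) hu

lemma coeff_theta (φ : Polynomial K) (i : ℕ) :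
    (Polynomial.X * Polynomial.derivative φ).coeff i = i * φ.coeff i := by
  cases i with
  | zero => simp
  | succ i => rw [Polynomial.coeff_X_mul, Polynomial.coeff_derivative]; push_cast; ring

/-- a sparse polynomial with a multiple nonzero root has large degree -/
lemma Mu.deg [CharZero K] {c : K} (hc : c ≠ 0) (p : ℕ) : ∀ (n : ℕ) (φ : Polynomial K) (e : ℕ),
    Mu c n φ → (∀ i ∈ φ.support, e ≤ i ∧ p ∣ i - e) → e + p * n ≤ φ.natDegree := by
  intro n
  induction n with
  | zero =>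
    intro φ e h hs
    simpa using (hs _ (Polynomial.natDegree_mem_support_of_nonzero h.ne_zero)).1
  | succ n ih =>
    intro φ e h hs
    have h1 := h.comb hc (-(e : K)) (r := 1) one_ne_zero
    set ψ := Polynomial.C (-(e : K)) * φ +
      Polynomial.C (1 : K) * (Polynomial.X * Polynomial.derivative φ) with hψ
    have hco : ∀ i, ψ.coeff i = ((i : K) - e) * φ.coeff i := by
      intro i
      rw [hψ, Polynomial.coeff_add, Polynomial.coeff_C_mul, Polynomial.coeff_C_mul, coeff_theta]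
      ring
    have hsup : ∀ i ∈ ψ.support, i ∈ φ.support ∧ i ≠ e := by
      intro i hi
      rw [Polynomial.mem_support_iff, hco] at hi
      refine ⟨?_, ?_⟩
      · rw [Polynomial.mem_support_iff]
        exact right_ne_zero_of_mul hi
      · rintro rfl
        simp at hi
    have h2 := ih ψ (e + p) h1 (by
      intro i hi
      obtain ⟨h3, h4⟩ := hsup i hi
      obtain ⟨h5, h6⟩ := hs i h3
      have h7 : p ≤ i - e := Nat.le_of_dvd (by omega) h6
      refine ⟨by omega, ?_⟩
      have : i - (e + p) = (i - e) - p := by omega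
      rw [this]
      exact Nat.dvd_sub h6 dvd_rfl)
    have h3 : ψ.natDegree ≤ φ.natDegree :=
      Polynomial.le_natDegree_of_mem_supp _
        (hsup _ (Polynomial.natDegree_mem_support_of_nonzero h1.ne_zero)).1
    calc e + p * (n + 1) = e + p + p * n := by ring
      _ ≤ ψ.natDegree := h2
      _ ≤ φ.natDegree := h3

/-! ### leading exponents -/

lemma wt_add (α β : Fin 3 →₀ ℕ) : wt w (α + β) = wt w α + wt w β := by
  simp [wt, add_mul, Finset.sum_add_distrib]

lemma wt_smul (n : ℕ) (α : Fin 3 →₀ ℕ) : wt w (n • α) = n * wt w α := by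
  simp [wt, Finset.mul_sum, mul_assoc]

lemma wt_zero : wt w (0 : Fin 3 →₀ ℕ) = 0 := by simp [wt]

lemma wt_le_dg {f : MvPolynomial (Fin 3) K} {ξ : Fin 3 →₀ ℕ} (h : ξ ∈ f.support) :
    wt w ξ ≤ dg w f := by
  unfold dg
  rw [dif_pos ⟨ξ, h⟩]
  exact Finset.le_sup' _ h

lemma exists_lead {f : MvPolynomial (Fin 3) K} (hf : f ≠ 0) :
    ∃ α ∈ f.support, wt w α = dg w f := by
  have hne : f.support.Nonempty := by
    rw [Finset.nonempty_iff_ne_empty]
    simpa using hf
  obtain ⟨α, h1, h2⟩ := Finset.exists_mem_eq_sup' hne (wt w)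
  exact ⟨α, h1, by unfold dg; rw [dif_pos hne, h2]⟩

/-- `α` bounds the exponents, `c` is its coefficient -/
def Lead (w : Fin 3 → ℝ) (f : MvPolynomial (Fin 3) K) (α : Fin 3 →₀ ℕ) (c : K) : Prop :=
  (∀ ξ ∈ f.support, wt w ξ ≤ wt w α) ∧ coeff α f = c

lemma Lead.mul (hw : Gen w) {f g : MvPolynomial (Fin 3) K} {α β : Fin 3 →₀ ℕ} {c d : K}
    (h1 : Lead w f α c) (h2 : Lead w g β d) : Lead w (f * g) (α + β) (c * d) := by
  constructor
  · intro ξ hξ
    obtain ⟨x, hx, y, hy, rfl⟩ := Finset.mem_add.mp (support_mul f g hξ)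
    rw [wt_add, wt_add]
    exact add_le_add (h1.1 x hx) (h2.1 y hy)
  · rw [coeff_mul, Finset.sum_eq_single (α, β)]
    · rw [h1.2, h2.2]
    · rintro ⟨x, y⟩ hxy hne
      rw [Finset.HasAntidiagonal.mem_antidiagonal] at hxy
      by_contra hc
      have hx : x ∈ f.support := by
        rw [mem_support_iff]; exact left_ne_zero_of_mul hc
      have hy : y ∈ g.support := by
        rw [mem_support_iff]; exact right_ne_zero_of_mul hc
      have e := congrArg (wt w) hxy
      rw [wt_add, wt_add] at e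
      have l1 := h1.1 x hx
      have l2 := h2.1 y hy
      have e1 : x = α := hw.inj _ _ (by linarith)
      have e2 : y = β := hw.inj _ _ (by linarith)
      exact hne (by rw [e1, e2])
    · intro h
      refine absurd ?_ h
      rw [Finset.HasAntidiagonal.mem_antidiagonal]

lemma Lead.one : Lead w (1 : MvPolynomial (Fin 3) K) 0 1 := by
  constructor
  · intro ξ hξ
    rw [mem_support_iff, coeff_one] at hξ
    by_cases h : 0 = ξ
    · rw [← h]
    · rw [if_neg h] at hξ; exact absurd rfl hξ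
  · simp

lemma Lead.pow (hw : Gen w) {f : MvPolynomial (Fin 3) K} {α : Fin 3 →₀ ℕ} {c : K}
    (h1 : Lead w f α c) (n : ℕ) : Lead w (f ^ n) (n • α) (c ^ n) := by
  induction n with
  | zero => simpa using Lead.one
  | succ n ih =>
    rw [pow_succ, pow_succ, succ_nsmul]
    exact ih.mul hw h1

lemma lead_of_dg {f : MvPolynomial (Fin 3) K} (hf : f ≠ 0) :
    ∃ (α : Fin 3 →₀ ℕ) (c : K), c ≠ 0 ∧ wt w α = dg w f ∧ Lead w f α c := by
  obtain ⟨α, h1, h2⟩ := exists_lead (w := w) hf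
  refine ⟨α, coeff α f, mem_support_iff.mp h1, h2, ?_, rfl⟩
  intro ξ hξ
  rw [h2]
  exact wt_le_dg hξ

/-! ### the top polynomial -/

open Classical in
/-- the top polynomial `∑ P_m cf^m0 T^m1` over the monomials of virtual degree `V` -/
noncomputable def tp (a b : ℝ) (cf : K) (V : ℝ) : MvPolynomial (Fin 2) K →ₗ[K] Polynomial K :=
  (MvPolynomial.basisMonomials (Fin 2) K).constr K
    (fun m => if (m 0 : ℝ) * a + (m 1 : ℝ) * b = V then
      Polynomial.C (cf ^ m 0) * Polynomial.X ^ m 1 else 0)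

open Classical in
lemma tp_monomial (a b : ℝ) (cf : K) (V : ℝ) (m : Fin 2 →₀ ℕ) (c : K) :
    tp a b cf V (monomial m c) = if (m 0 : ℝ) * a + (m 1 : ℝ) * b = V then
      Polynomial.C (c * cf ^ m 0) * Polynomial.X ^ m 1 else 0 := by
  have h : monomial m c = c • (MvPolynomial.basisMonomials (Fin 2) K) m := by
    rw [coe_basisMonomials, smul_monomial, smul_eq_mul, mul_one]
  rw [h, map_smul, tp, Module.Basis.constr_basis]
  split_ifs
  · rw [Polynomial.smul_eq_C_mul, map_mul, mul_assoc]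
  · simp

open Classical in
lemma tp_sum (a b : ℝ) (cf : K) (V : ℝ) (P : MvPolynomial (Fin 2) K) :
    tp a b cf V P = ∑ m ∈ P.support, if (m 0 : ℝ) * a + (m 1 : ℝ) * b = V then
      Polynomial.C (coeff m P * cf ^ m 0) * Polynomial.X ^ m 1 else 0 := by
  conv_lhs => rw [P.as_sum]
  rw [map_sum]
  exact Finset.sum_congr rfl fun m _ => tp_monomial a b cf V m _

lemma tp_supp {a b : ℝ} {cf : K} {V : ℝ} {P : MvPolynomial (Fin 2) K} {i : ℕ}
    (h : i ∈ (tp a b cf V P).support) :
    ∃ m ∈ P.support, (m 0 : ℝ) * a + (m 1 : ℝ) * b = V ∧ m 1 = i := by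
  classical
  rw [Polynomial.mem_support_iff, tp_sum, Polynomial.finsetSum_coeff] at h
  obtain ⟨m, h1, h2⟩ := Finset.exists_ne_zero_of_sum_ne_zero h
  refine ⟨m, h1, ?_⟩
  split_ifs at h2 with h3
  · refine ⟨h3, ?_⟩
    rw [Polynomial.coeff_C_mul_X_pow] at h2
    by_contra hc
    rw [if_neg (fun e => hc e.symm)] at h2
    exact h2 rfl
  · simp at h2

lemma tp_coeff {a b : ℝ} (ha : 0 < a) {cf : K} {V : ℝ} {m : Fin 2 →₀ ℕ}
    (hm : (m 0 : ℝ) * a + (m 1 : ℝ) * b = V) (P : MvPolynomial (Fin 2) K) :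
    (tp a b cf V P).coeff (m 1) = coeff m P * cf ^ m 0 := by
  classical
  induction P using MvPolynomial.induction_on' with
  | add p q hp hq => rw [map_add, Polynomial.coeff_add, hp, hq, coeff_add]; ring
  | monomial s c =>
    rw [tp_monomial, coeff_monomial]
    by_cases h : s = m
    · subst h
      rw [if_pos hm, if_pos rfl, Polynomial.coeff_C_mul_X_pow, if_pos rfl]
    · rw [if_neg h, zero_mul]
      split_ifs with h1
      · rw [Polynomial.coeff_C_mul_X_pow, if_neg]
        intro h2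
        apply h
        have h3 : (s 0 : ℝ) * a = (m 0 : ℝ) * a := by rw [← h2] at h1; linarith
        have h4 : s 0 = m 0 := by exact_mod_cast mul_right_cancel₀ ha.ne' h3
        ext i; fin_cases i
        · exact h4
        · exact h2.symm
      · simp

/-- the coefficient of `P(f,g)` at the exponent of weight `V` -/
lemma coeff_ev (hw : Gen w) {f g : MvPolynomial (Fin 3) K} {α β : Fin 3 →₀ ℕ} {cf cg : K}
    (hf : Lead w f α cf) (hg : Lead w g β cg) (P : MvPolynomial (Fin 2) K) (V : ℝ)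
    (hle : ∀ m ∈ P.support, (m 0 : ℝ) * wt w α + (m 1 : ℝ) * wt w β ≤ V) (ξ : Fin 3 →₀ ℕ)
    (hξ : wt w ξ = V) :
    coeff ξ (ev P f g) = (tp (wt w α) (wt w β) cf V P).eval cg := by
  classical
  rw [tp_sum, Polynomial.eval_finsetSum]
  unfold ev
  rw [aeval_def, eval₂_eq', coeff_sum]
  refine Finset.sum_congr rfl fun m hm => ?_
  have hL := (hf.pow hw (m 0)).mul hw (hg.pow hw (m 1))
  have hwt : wt w (m 0 • α + m 1 • β) = (m 0 : ℝ) * wt w α + (m 1 : ℝ) * wt w β := by
    rw [wt_add, wt_smul, wt_smul]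
  rw [Fin.prod_univ_two, algebraMap_eq, coeff_C_mul]
  simp only [Matrix.cons_val_zero, Matrix.cons_val_one]
  by_cases h : (m 0 : ℝ) * wt w α + (m 1 : ℝ) * wt w β = V
  · rw [if_pos h]
    have : ξ = m 0 • α + m 1 • β := hw.inj _ _ (by rw [hwt, h, hξ])
    rw [this, hL.2]
    simp only [Polynomial.eval_mul, Polynomial.eval_C, Polynomial.eval_pow, Polynomial.eval_X]
    ring
  · rw [if_neg h, Polynomial.eval_zero]
    have h1 := lt_of_le_of_ne (hle m hm) h
    have : coeff ξ (f ^ m 0 * g ^ m 1) = 0 := by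
      by_contra hc
      have := hL.1 ξ (mem_support_iff.mpr hc)
      rw [hwt, hξ] at this
      linarith
    rw [this, mul_zero]

lemma vdg_of_tp (Fp : VdFacts K w) {a b : ℝ} {cf : K} {V : ℝ} {P : MvPolynomial (Fin 2) K}
    (hle : ∀ m ∈ P.support, (m 0 : ℝ) * a + (m 1 : ℝ) * b ≤ V) (h : tp a b cf V P ≠ 0) :
    vdg a b P = V := by
  obtain ⟨m, h1, h2, -⟩ := tp_supp (Polynomial.natDegree_mem_support_of_nonzero h)
  have hP : P ≠ 0 := by rintro rfl; simp at h
  obtain ⟨m', h3, h4⟩ := Fp.att a b P hP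
  apply le_antisymm
  · rw [← h4]; exact hle m' h3
  · rw [← h2]; exact Fp.ge a b P m h1

lemma dg_of_eval (hw : Gen w) (Fp : VdFacts K w) {f g : MvPolynomial (Fin 3) K}
    {α β : Fin 3 →₀ ℕ} {cf cg : K} (hf : Lead w f α cf) (hg : Lead w g β cg)
    (hα : wt w α = dg w f) (hβ : wt w β = dg w g) (P : MvPolynomial (Fin 2) K) (V : ℝ)
    (hle : ∀ m ∈ P.support, (m 0 : ℝ) * dg w f + (m 1 : ℝ) * dg w g ≤ V)
    (h : (tp (dg w f) (dg w g) cf V P).eval cg ≠ 0) : dg w (ev P f g) = V := by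
  have hne : tp (dg w f) (dg w g) cf V P ≠ 0 := by intro h0; rw [h0] at h; simp at h
  obtain ⟨m, h1, h2, -⟩ := tp_supp (Polynomial.natDegree_mem_support_of_nonzero hne)
  apply le_antisymm
  · rw [← vdg_of_tp Fp hle hne]
    exact Fp.ev_le f g P
  · have hwt : wt w (m 0 • α + m 1 • β) = V := by
      rw [wt_add, wt_smul, wt_smul, hα, hβ, h2]
    have hc := coeff_ev hw hf hg P V (by rw [hα, hβ]; exact hle) (m 0 • α + m 1 • β) hwt
    rw [hα, hβ] at hc
    rw [← hwt]
    apply wt_le_dg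
    rw [mem_support_iff, hc]
    exact h

/-! ### derivatives of the top polynomial -/

lemma theta_mono (r : K) (j : ℕ) :
    Polynomial.X * Polynomial.derivative (Polynomial.C r * Polynomial.X ^ j) =
      Polynomial.C (r * j) * Polynomial.X ^ j := by
  ext i
  rw [coeff_theta, Polynomial.coeff_C_mul_X_pow, Polynomial.coeff_C_mul_X_pow]
  split_ifs with h
  · rw [h]; ring
  · simp

lemma tp_pd1 (a b : ℝ) (cf : K) (V : ℝ) (P : MvPolynomial (Fin 2) K) :
    tp a b cf (V - b) (pderiv 1 P) = Polynomial.derivative (tp a b cf V P) := by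
  classical
  induction P using MvPolynomial.induction_on' with
  | add p q hp hq => simp only [map_add, hp, hq]
  | monomial m c =>
    rw [pderiv_monomial, tp_monomial, tp_monomial]
    have e0 : (m - Finsupp.single 1 1 : Fin 2 →₀ ℕ) 0 = m 0 := by simp
    have e1 : (m - Finsupp.single 1 1 : Fin 2 →₀ ℕ) 1 = m 1 - 1 := by simp
    rw [e0, e1]
    rcases Nat.eq_zero_or_pos (m 1) with h | h
    · have hd : ∀ r : K, Polynomial.derivative (Polynomial.C r * Polynomial.X ^ 0) = 0 := by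
        intro r; simp
      have hc : ∀ r : K, Polynomial.C (c * ((0 : ℕ) : K) * r) = 0 := by intro r; simp
      rw [h, hc, zero_mul, ite_self]
      split_ifs
      · rw [hd]
      · simp
    · obtain ⟨k, hk⟩ : ∃ k, m 1 = k + 1 := ⟨m 1 - 1, by omega⟩
      rw [hk]
      have hiff : ((m 0 : ℝ) * a + ((k + 1 - 1 : ℕ) : ℝ) * b = V - b) ↔
          ((m 0 : ℝ) * a + ((k + 1 : ℕ) : ℝ) * b = V) := by
        simp only [Nat.add_sub_cancel, Nat.cast_add, Nat.cast_one]
        constructor <;> intro h <;> linarith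
      by_cases hV : ((m 0 : ℝ) * a + ((k + 1 : ℕ) : ℝ) * b = V)
      · rw [if_pos hV, if_pos (hiff.mpr hV), Polynomial.derivative_C_mul_X_pow]
        congr 2
        ring
      · rw [if_neg hV, if_neg (fun h => hV (hiff.mp h))]
        simp

lemma tp_pd0 {γ : ℝ} (hγ : 0 < γ) (p q : ℕ) (N : ℤ) (cf : K) (P : MvPolynomial (Fin 2) K) :
    Polynomial.C ((p : K) * cf) * tp (p * γ) (q * γ) cf (N * γ - p * γ) (pderiv 0 P) =
      Polynomial.C (N : K) * tp (p * γ) (q * γ) cf (N * γ) P +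
      Polynomial.C (-(q : K)) * (Polynomial.X *
        Polynomial.derivative (tp (p * γ) (q * γ) cf (N * γ) P)) := by
  classical
  induction P using MvPolynomial.induction_on' with
  | add P Q hP hQ =>
    simp only [map_add, mul_add, hP, hQ]
    ring
  | monomial m c =>
    rw [pderiv_monomial, tp_monomial, tp_monomial]
    have e0 : (m - Finsupp.single 0 1 : Fin 2 →₀ ℕ) 0 = m 0 - 1 := by simp
    have e1 : (m - Finsupp.single 0 1 : Fin 2 →₀ ℕ) 1 = m 1 := by simp
    rw [e0, e1]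
    have key : (m 0 : ℝ) * (p * γ) + (m 1 : ℝ) * (q * γ) = N * γ →
        (N : K) = m 0 * p + m 1 * q := by
      intro h
      have h1 : ((m 0 : ℝ) * p + (m 1 : ℝ) * q) * γ = N * γ := by linarith
      have h2 := mul_right_cancel₀ hγ.ne' h1
      have h3 : (m 0 : ℤ) * p + (m 1 : ℤ) * q = N := by exact_mod_cast h2
      rw [← h3]; push_cast; ring
    rcases Nat.eq_zero_or_pos (m 0) with h | h
    · rw [h]
      by_cases hV : (m 0 : ℝ) * (p * γ) + (m 1 : ℝ) * (q * γ) = N * γ
      · have h4 := key hV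
        rw [h] at hV h4
        rw [if_pos hV, theta_mono, h4]
        simp only [Nat.cast_zero, mul_zero, pow_zero, mul_one, zero_mul, zero_add, map_zero,
          Polynomial.C_mul, map_neg]
        split_ifs <;> ring
      · rw [h] at hV
        rw [if_neg hV]
        simp
    · obtain ⟨k, hk⟩ : ∃ k, m 0 = k + 1 := ⟨m 0 - 1, by omega⟩
      rw [hk] at key
      rw [hk]
      have hiff : (((k + 1 - 1 : ℕ) : ℝ) * (p * γ) + (m 1 : ℝ) * (q * γ) = N * γ - p * γ) ↔
          (((k + 1 : ℕ) : ℝ) * (p * γ) + (m 1 : ℝ) * (q * γ) = N * γ) := by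
        simp only [Nat.add_sub_cancel, Nat.cast_add, Nat.cast_one]
        constructor <;> intro h <;> linarith
      by_cases hV : (((k + 1 : ℕ) : ℝ) * (p * γ) + (m 1 : ℝ) * (q * γ) = N * γ)
      · rw [if_pos hV, if_pos (hiff.mpr hV), theta_mono, key hV]
        simp only [Nat.add_sub_cancel, ← mul_assoc, ← Polynomial.C_mul, ← add_mul,
          ← Polynomial.C_add]
        congr 2
        push_cast
        ring
      · rw [if_neg hV, if_neg (fun h => hV (hiff.mp h))]
        simp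

/-- degenerate states: all monomials are `≤ V`, `cg` is a root of multiplicity `n` -/
structure St (a b : ℝ) (cf cg : K) (V : ℝ) (n : ℕ) (P : MvPolynomial (Fin 2) K) : Prop where
  le : ∀ m ∈ P.support, (m 0 : ℝ) * a + (m 1 : ℝ) * b ≤ V
  mu : Mu cg n (tp a b cf V P)

lemma St.d1 [CharZero K] {a b : ℝ} {cf cg : K} {V : ℝ} {n : ℕ} {P : MvPolynomial (Fin 2) K}
    (h : St a b cf cg V (n + 1) P) : St a b cf cg (V - b) n (pderiv 1 P) := by
  refine ⟨?_, ?_⟩
  · intro m hm
    rw [mem_support_iff, coeff_pderiv] at hm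
    have := h.le _ (mem_support_iff.mpr (left_ne_zero_of_mul hm))
    simp at this
    linarith
  · rw [tp_pd1]
    exact h.mu.deriv

lemma St.d0 [CharZero K] {γ : ℝ} (hγ : 0 < γ) {p q : ℕ} (hp : 1 ≤ p) (hq : 1 ≤ q) {N : ℤ}
    {cf cg : K} (hcf : cf ≠ 0) (hcg : cg ≠ 0) {n : ℕ} {P : MvPolynomial (Fin 2) K}
    (h : St (p * γ) (q * γ) cf cg (N * γ) (n + 1) P) :
    St (p * γ) (q * γ) cf cg (N * γ - p * γ) n (pderiv 0 P) := by
  refine ⟨?_, ?_⟩
  · intro m hm
    rw [mem_support_iff, coeff_pderiv] at hm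
    have := h.le _ (mem_support_iff.mpr (left_ne_zero_of_mul hm))
    simp at this
    linarith
  · have hp' : (p : K) ≠ 0 := by exact_mod_cast (by omega : p ≠ 0)
    have hq' : (q : K) ≠ 0 := by exact_mod_cast (by omega : q ≠ 0)
    have h1 := h.mu.comb hcg (N : K) (neg_ne_zero.mpr hq')
    rw [← tp_pd0 hγ] at h1
    exact h1.of_C_mul (mul_ne_zero hp' hcf)

lemma St.pd [CharZero K] {γ : ℝ} (hγ : 0 < γ) {p q : ℕ} (hp : 1 ≤ p) (hq : 1 ≤ q) {N : ℤ}
    {cf cg : K} (hcf : cf ≠ 0) (hcg : cg ≠ 0) (k l : ℕ) {n : ℕ} {P : MvPolynomial (Fin 2) K}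
    (h : St (p * γ) (q * γ) cf cg (N * γ) (n + k + l) P) :
    St (p * γ) (q * γ) cf cg (N * γ - k * (p * γ) - l * (q * γ)) n (pd k l P) := by
  have h1 : ∀ (l n : ℕ) (N : ℤ) (P : MvPolynomial (Fin 2) K),
      St (p * γ) (q * γ) cf cg (N * γ) (n + l) P →
      St (p * γ) (q * γ) cf cg (N * γ - l * (q * γ)) n
        ((fun Q : MvPolynomial (Fin 2) K => pderiv 1 Q)^[l] P) := by
    intro l
    induction l with
    | zero => intro n N P h; simpa using h
    | succ l ih =>
      intro n N P h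
      have h2 := St.d1 (n := n + l) (by simpa [add_assoc] using h)
      have e : (N : ℝ) * γ - q * γ = ((N - q : ℤ) : ℝ) * γ := by push_cast; ring
      rw [e] at h2
      have h3 := ih n _ _ h2
      rw [Function.iterate_succ_apply]
      have e2 : ((N - q : ℤ) : ℝ) * γ - l * (q * γ) = (N : ℝ) * γ - ((l + 1 : ℕ) : ℝ) * (q * γ) := by
        push_cast; ring
      rw [e2] at h3
      exact h3
  have h2 : ∀ (k n : ℕ) (N : ℤ) (P : MvPolynomial (Fin 2) K),
      St (p * γ) (q * γ) cf cg (N * γ) (n + k) P →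
      St (p * γ) (q * γ) cf cg (N * γ - k * (p * γ)) n
        ((fun Q : MvPolynomial (Fin 2) K => pderiv 0 Q)^[k] P) := by
    intro k
    induction k with
    | zero => intro n N P h; simpa using h
    | succ k ih =>
      intro n N P h
      have h2 := St.d0 hγ hp hq hcf hcg (n := n + k) (N := N) (by simpa [add_assoc] using h)
      have e : (N : ℝ) * γ - p * γ = ((N - p : ℤ) : ℝ) * γ := by push_cast; ring
      rw [e] at h2
      have h3 := ih n _ _ h2
      rw [Function.iterate_succ_apply]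
      have e2 : ((N - p : ℤ) : ℝ) * γ - k * (p * γ) = (N : ℝ) * γ - ((k + 1 : ℕ) : ℝ) * (p * γ) := by
        push_cast; ring
      rw [e2] at h3
      exact h3
  have h3 := h1 l (n + k) N P h
  have e : (N : ℝ) * γ - l * (q * γ) = ((N - l * q : ℤ) : ℝ) * γ := by push_cast; ring
  rw [e] at h3
  have h4 := h2 k n _ _ h3
  have e2 : ((N - l * q : ℤ) : ℝ) * γ - k * (p * γ) =
      (N : ℝ) * γ - k * (p * γ) - l * (q * γ) := by push_cast; ring
  rw [e2] at h4
  exact h4

/-- the inequality for a state -/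
lemma St.low [CharZero K] (hw : Gen w) (F : Facts K w) {f g : MvPolynomial (Fin 3) K}
    {α β : Fin 3 →₀ ℕ} {cf cg : K} (hf : Lead w f α cf) (hg : Lead w g β cg)
    (hα : wt w α = dg w f) (hβ : wt w β = dg w g) (hb : 0 < br w f g) :
    ∀ (n : ℕ) (V : ℝ) (P : MvPolynomial (Fin 2) K), St (dg w f) (dg w g) cf cg V n P →
      V - n * (dg w f + dg w g - br w f g) ≤ dg w (ev P f g) ∧ ev P f g ≠ 0 ∧
      (n = 0 → dg w (ev P f g) = V) := by
  intro n
  induction n with
  | zero =>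
    intro V P h
    have h1 := dg_of_eval hw F.p hf hg hα hβ P V h.le h.mu.eval_ne
    refine ⟨by simp [h1], ?_, fun _ => h1⟩
    intro h0
    have := F.b.inj f g P hb h0
    exact h.mu.ne_zero (by rw [this, map_zero])
  | succ n ih =>
    intro V P h
    obtain ⟨h1, h2, -⟩ := ih _ _ h.d1
    have hcr : cr (D f) (D g) ≠ 0 := by
      intro h0
      unfold br at hb
      rw [h0, F.v.zero] at hb
      exact lt_irrefl _ hb
    have h3 := F.b.t1 f g P h2 hcr
    refine ⟨?_, ?_, fun h0 => absurd h0 (Nat.succ_ne_zero n)⟩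
    · push_cast; linarith
    · intro h0
      have := F.b.inj f g P hb h0
      exact h.mu.ne_zero (by rw [this, map_zero])

/-- module SU: the Shestakov-Umirbaev inequality -/
theorem su [CharZero K] (hw : Gen w) (F : Facts K w) : SuStatement K w := by
  intro f g P hb hdeg
  have hD : ∀ f g : MvPolynomial (Fin 3) K, 0 < br w f g → 0 < dg w f := by
    intro f g hb
    rcases (F.d.nn f).lt_or_eq with h | h
    · exact h
    · obtain ⟨c, rfl⟩ := F.d.of_zero f h.symm
      unfold br at hb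
      rw [D_C, cr_zero_left, F.v.zero] at hb
      exact absurd hb (lt_irrefl _)
  have ha := hD f g hb
  have hbb := hD g f (by rw [F.b.comm]; exact hb)
  have hf0 : f ≠ 0 := by rintro rfl; rw [F.d.zero] at ha; exact lt_irrefl _ ha
  have hg0 : g ≠ 0 := by rintro rfl; rw [F.d.zero] at hbb; exact lt_irrefl _ hbb
  obtain ⟨α, cf, hcf, hα, hLf⟩ := lead_of_dg (w := w) hf0
  obtain ⟨β, cg, hcg, hβ, hLg⟩ := lead_of_dg (w := w) hg0
  have hP : P ≠ 0 := by
    rintro rfl
    rw [ev_zero, F.d.zero] at hdeg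
    unfold vdg at hdeg
    simp at hdeg
  set V := vdg (dg w f) (dg w g) P with hV
  have hle : ∀ m ∈ P.support, (m 0 : ℝ) * dg w f + (m 1 : ℝ) * dg w g ≤ V :=
    fun m hm => F.p.ge _ _ P m hm
  obtain ⟨m₀, hm₀, hm₀V⟩ := F.p.att (dg w f) (dg w g) P hP
  set φ := tp (dg w f) (dg w g) cf V P with hφ
  have hφ0 : φ ≠ 0 := by
    intro h
    have h1 := tp_coeff ha (cf := cf) hm₀V P
    rw [← hφ, h, Polynomial.coeff_zero] at h1
    exact mul_ne_zero (mem_support_iff.mp hm₀) (pow_ne_zero _ hcf) h1.symm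
  have hroot : φ.eval cg = 0 := by
    by_contra h
    have := dg_of_eval hw F.p hLf hLg hα hβ P V hle h
    linarith
  obtain ⟨n, hn⟩ := exists_mu cg hφ0
  -- two different monomials in the top
  obtain ⟨m1, hm1, hm1V, hm1e⟩ : ∃ m ∈ P.support,
      (m 0 : ℝ) * dg w f + (m 1 : ℝ) * dg w g = V ∧ m 1 = φ.natDegree :=
    tp_supp (Polynomial.natDegree_mem_support_of_nonzero hφ0)
  obtain ⟨m2, hm2, hm2V, hm2e⟩ : ∃ m ∈ P.support,
      (m 0 : ℝ) * dg w f + (m 1 : ℝ) * dg w g = V ∧ m 1 = φ.natTrailingDegree :=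
    tp_supp (Polynomial.natTrailingDegree_mem_support_of_nonzero hφ0)
  have hlt : φ.natTrailingDegree < φ.natDegree := by
    refine lt_of_le_of_ne (Polynomial.natTrailingDegree_le_natDegree φ) ?_
    intro he
    have h1 : φ = Polynomial.C φ.leadingCoeff * Polynomial.X ^ φ.natDegree := by
      ext i
      rw [Polynomial.coeff_C_mul_X_pow]
      split_ifs with h
      · rw [h]; rfl
      · by_contra hc
        have h2 := Polynomial.le_natDegree_of_ne_zero hc
        have h3 := Polynomial.natTrailingDegree_le_of_ne_zero hc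
        omega
    rw [h1] at hroot
    simp only [Polynomial.eval_mul, Polynomial.eval_C, Polynomial.eval_pow,
      Polynomial.eval_X] at hroot
    exact mul_ne_zero (Polynomial.leadingCoeff_ne_zero.mpr hφ0) (pow_ne_zero _ hcg) hroot
  have h12 : m2 1 < m1 1 := by omega
  have h21 : m1 0 < m2 0 := by
    have h1 : ((m2 0 : ℝ) - m1 0) * dg w f = ((m1 1 : ℝ) - m2 1) * dg w g := by linarith
    have h2 : (0 : ℝ) < (m1 1 : ℝ) - m2 1 := by
      have : (m2 1 : ℝ) < m1 1 := by exact_mod_cast h12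
      linarith
    have h3 : 0 < ((m2 0 : ℝ) - m1 0) * dg w f := by rw [h1]; exact mul_pos h2 hbb
    have h4 := (mul_pos_iff_of_pos_right ha).mp h3
    have h5 : (m1 0 : ℝ) < m2 0 := by linarith
    exact_mod_cast h5
  obtain ⟨u, hu⟩ : ∃ u, m2 0 = m1 0 + u := ⟨m2 0 - m1 0, by omega⟩
  obtain ⟨v, hv⟩ : ∃ v, m1 1 = m2 1 + v := ⟨m1 1 - m2 1, by omega⟩
  have hu0 : 0 < u := by omega
  have hv0 : 0 < v := by omega
  have huv : (u : ℝ) * dg w f = (v : ℝ) * dg w g := by
    rw [hu] at hm2V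
    rw [hv] at hm1V
    push_cast at hm1V hm2V
    linarith
  obtain ⟨p, q, hpq, hp, hq, hpq'⟩ : ∃ p q : ℕ, Nat.Coprime p q ∧ 0 < p ∧ 0 < q ∧
      (q : ℝ) * dg w f = p * dg w g := by
    obtain ⟨d, hd, hcop, hv', hu'⟩ : ∃ d : ℕ, 0 < d ∧ Nat.Coprime (v / Nat.gcd v u) (u / Nat.gcd v u) ∧
        v = (v / Nat.gcd v u) * d ∧ u = (u / Nat.gcd v u) * d := by
      refine ⟨Nat.gcd v u, Nat.gcd_pos_of_pos_left _ hv0,
        Nat.coprime_div_gcd_div_gcd (Nat.gcd_pos_of_pos_left _ hv0),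
        (Nat.div_mul_cancel (Nat.gcd_dvd_left v u)).symm,
        (Nat.div_mul_cancel (Nat.gcd_dvd_right v u)).symm⟩
    refine ⟨v / Nat.gcd v u, u / Nat.gcd v u, hcop, ?_, ?_, ?_⟩
    · exact Nat.div_pos (Nat.le_of_dvd hv0 (Nat.gcd_dvd_left v u)) (Nat.gcd_pos_of_pos_left _ hv0)
    · exact Nat.div_pos (Nat.le_of_dvd hu0 (Nat.gcd_dvd_right v u)) (Nat.gcd_pos_of_pos_left _ hv0)
    · have hd' : (0 : ℝ) < d := by exact_mod_cast hd
      generalize u / Nat.gcd v u = u' at *
      generalize v / Nat.gcd v u = v' at *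
      rw [hv', hu'] at huv
      push_cast at huv
      have : ((u' : ℝ) * dg w f) * d = ((v' : ℝ) * dg w g) * d := by linarith
      exact mul_right_cancel₀ hd'.ne' this
  have hp' : (0 : ℝ) < p := by exact_mod_cast hp
  have hq' : (0 : ℝ) < q := by exact_mod_cast hq
  obtain ⟨γ, hγ⟩ : ∃ γ : ℝ, γ = dg w f / p := ⟨_, rfl⟩
  have hfγ : dg w f = p * γ := by rw [hγ]; field_simp
  have hgγ : dg w g = q * γ := by
    have : (p : ℝ) * dg w g = p * (q * γ) := by rw [← hpq', hfγ]; ring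
    exact mul_left_cancel₀ hp'.ne' this
  have hγ0 : 0 < γ := by rw [hγ]; exact div_pos ha hp'
  -- V is an integer multiple of γ
  have hVN : V = ((m1 0 * p + m1 1 * q : ℤ) : ℝ) * γ := by
    rw [← hm1V, hfγ, hgγ]; push_cast; ring
  have hst : St (p * γ) (q * γ) cf cg (((m1 0 * p + m1 1 * q : ℤ) : ℝ) * γ) n P := by
    rw [← hVN, ← hfγ, ← hgγ]
    exact ⟨hle, hn⟩
  have hn1 : 1 ≤ n := by
    by_contra h
    have : n = 0 := by omega
    subst this
    exact hn.eval_ne hroot
  -- congruences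
  have hcong : ∀ i ∈ φ.support, m2 1 ≤ i ∧ p ∣ i - m2 1 := by
    intro i hi
    have h1 : m2 1 ≤ i := by
      rw [hm2e]; exact Polynomial.natTrailingDegree_le_of_mem_supp _ hi
    refine ⟨h1, ?_⟩
    obtain ⟨m, hm, hmV, hme⟩ := tp_supp hi
    have h2 : ((m 0 : ℝ) * p + m 1 * q) * γ = ((m2 0 : ℝ) * p + m2 1 * q) * γ := by
      have h3 := hmV
      have h4 := hm2V
      rw [hfγ, hgγ] at h3 h4
      linarith
    have h3 := mul_right_cancel₀ hγ0.ne' h2
    have h4 : m 0 * p + m 1 * q = m2 0 * p + m2 1 * q := by exact_mod_cast h3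
    have h5 : (p : ℤ) ∣ ((i - m2 1 : ℕ) : ℤ) * q := by
      rw [Nat.cast_sub h1, ← hme]
      refine ⟨(m2 0 : ℤ) - m 0, ?_⟩
      have h6 : (m 0 : ℤ) * p + m 1 * q = m2 0 * p + m2 1 * q := by exact_mod_cast h4
      linear_combination h6
    have h6 : p ∣ (i - m2 1) * q := by exact_mod_cast h5
    exact hpq.dvd_of_dvd_mul_right h6
  have hdegφ := Mu.deg hcg p n φ (m2 1) hn hcong
  have hm1big : p * n ≤ m1 1 := by omega
  refine ⟨p, q, n, γ, ⟨hγ0, hp, hq, hn1, hpq, hfγ, hgγ, ?_, ?_, ?_, ?_⟩⟩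
  · refine ⟨m1 0, m1 1 - p * n, ?_⟩
    rw [← hV, hVN, Nat.cast_sub hm1big]
    push_cast
    ring
  · intro k l hkl
    have h1 := hst
    have h2 : n = (n - k - l) + k + l := by omega
    rw [h2] at h1
    have h3 := St.pd hγ0 hp hq hcf hcg k l h1
    rw [← hVN] at h3
    have h4 := St.low hw F hLf hLg hα hβ hb (n - k - l) _ _ (by rw [hfγ, hgγ]; exact h3)
    have h5 := h4.1
    rw [Nat.sub_sub, Nat.cast_sub hkl] at h5
    rw [hfγ, hgγ] at h5
    push_cast at h5
    rw [← hV]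
    have : (((p : ℝ) + q) * γ - br w f g) = (p * γ + q * γ - br w f g) := by ring
    rw [this]
    linarith
  · intro k l hkl
    have h1 := hst
    have h2 : n = (n - k - l) + k + l := by omega
    rw [h2] at h1
    have h3 := St.pd hγ0 hp hq hcf hcg k l h1
    have h4 := St.low hw F hLf hLg hα hβ hb (n - k - l) _ _ (by rw [hfγ, hgγ]; exact h3)
    exact h4.2.1
  · intro k l hkl
    have h1 := hst
    have h2 : n = 0 + k + l := by omega
    rw [h2] at h1
    have h3 := St.pd hγ0 hp hq hcf hcg k l h1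
    have h4 := St.low hw F hLf hLg hα hβ hb 0 _ _ (by rw [hfγ, hgγ]; exact h3)
    rw [← hV, hVN]
    exact h4.2.2 rfl

end

end Pool.Agent.Lib.MP_e1f7e2_al.SU.H98
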