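import Pool.Agent.Lib.MP_e1f7e2_al.SU.Iface

set_option autoImplicit false

/-!
Project SU3 (MP_e1f7e2_al): module SULOW.
-/

open MvPolynomial

namespace Pool.Agent.Lib.MP_e1f7e2_al.SU.H98

/-- module SULOW -/
theorem sulow {K : Type*} [Field K] {w : Fin 3 → ℝ} : SuLowStatement K w := by
  intro f g P p q m γ S
  obtain ⟨i, j, h⟩ := S.vd
  refine ⟨i, j, h, ?_⟩
  have h0 : pd 0 0 P = P := rfl
  have h1 := S.low 0 0 (Nat.zero_le _)
  rw [h0, h] at h1
  simp only [Nat.cast_zero, zero_mul, sub_zero] at h1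
  refine le_trans (le_of_eq ?_) h1
  ring

end Pool.Agent.Lib.MP_e1f7e2_al.SU.H98
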