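import Pool.Agent.Lib.MP_e1f7e2_al.SU.H98.Su

set_option autoImplicit false

/-!
Project SU3 (MP_e1f7e2_al): module DEG, the degree function.
-/

open MvPolynomial

namespace Pool.Agent.Lib.MP_e1f7e2_al.SU.H98

section

variable {K : Type*} [Field K] {w : Fin 3 → ℝ}

lemma wt_nonneg (hw : Gen w) (α : Fin 3 →₀ ℕ) : 0 ≤ wt w α :=
  Finset.sum_nonneg fun i _ => mul_nonneg (Nat.cast_nonneg _) (hw.pos i).le

lemma dg_nonneg (hw : Gen w) (f : MvPolynomial (Fin 3) K) : 0 ≤ dg w f := by
  by_cases h : f = 0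
  · subst h
    unfold dg
    simp
  · obtain ⟨α, -, h2⟩ := exists_lead (w := w) h
    rw [← h2]
    exact wt_nonneg hw α

lemma dg_zero : dg w (0 : MvPolynomial (Fin 3) K) = 0 := by
  unfold dg
  simp

lemma dg_le {f : MvPolynomial (Fin 3) K} {r : ℝ} (hr : 0 ≤ r)
    (h : ∀ ξ ∈ f.support, wt w ξ ≤ r) : dg w f ≤ r := by
  by_cases h0 : f = 0
  · subst h0
    rw [dg_zero]
    exact hr
  · obtain ⟨α, h1, h2⟩ := exists_lead (w := w) h0
    rw [← h2]
    exact h α h1

lemma dg_add_le (hw : Gen w) (f g : MvPolynomial (Fin 3) K) :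
    dg w (f + g) ≤ max (dg w f) (dg w g) := by
  classical
  refine dg_le (le_max_of_le_left (dg_nonneg hw f)) fun ξ hξ => ?_
  rcases Finset.mem_union.mp (support_add hξ) with h | h
  · exact (wt_le_dg h).trans (le_max_left _ _)
  · exact (wt_le_dg h).trans (le_max_right _ _)

lemma dg_neg (f : MvPolynomial (Fin 3) K) : dg w (-f) = dg w f := by
  unfold dg
  simp only [support_neg]

lemma dg_const (hw : Gen w) (c : K) : dg w (C c : MvPolynomial (Fin 3) K) = 0 := by
  refine le_antisymm (dg_le le_rfl fun ξ hξ => ?_) (dg_nonneg hw _)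
  rw [mem_support_iff, coeff_C] at hξ
  by_cases h : 0 = ξ
  · rw [← h, wt_zero]
  · rw [if_neg h] at hξ
    exact absurd rfl hξ

lemma dg_add_right (hw : Gen w) (f g : MvPolynomial (Fin 3) K) (h : dg w f < dg w g) :
    dg w (f + g) = dg w g := by
  refine le_antisymm ((dg_add_le hw f g).trans (max_le h.le le_rfl)) ?_
  have hg : g ≠ 0 := by
    rintro rfl
    rw [dg_zero] at h
    exact absurd h (not_lt.mpr (dg_nonneg hw f))
  obtain ⟨β, h1, h2⟩ := exists_lead (w := w) hg
  have hf : coeff β f = 0 := by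
    by_contra hc
    have := wt_le_dg (w := w) (mem_support_iff.mpr hc)
    linarith
  rw [← h2]
  apply wt_le_dg
  rw [mem_support_iff, coeff_add, hf, zero_add]
  exact mem_support_iff.mp h1

lemma dg_mul (hw : Gen w) (f g : MvPolynomial (Fin 3) K) (hf : f ≠ 0) (hg : g ≠ 0) :
    dg w (f * g) = dg w f + dg w g := by
  obtain ⟨α, c, hc, hα, hL⟩ := lead_of_dg (w := w) hf
  obtain ⟨β, d, hd, hβ, hM⟩ := lead_of_dg (w := w) hg
  have h := hL.mul hw hM
  rw [← hα, ← hβ, ← wt_add]
  apply le_antisymm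
  · exact dg_le (wt_nonneg hw _) h.1
  · apply wt_le_dg
    rw [mem_support_iff, h.2]
    exact mul_ne_zero hc hd

lemma dg_Cmul (hw : Gen w) (c : K) (f : MvPolynomial (Fin 3) K) (hc : c ≠ 0) :
    dg w (C c * f) = dg w f := by
  by_cases hf : f = 0
  · rw [hf, mul_zero]
  · rw [dg_mul hw _ _ (by rwa [Ne, C_eq_zero]) hf, dg_const hw, zero_add]

lemma dg_fin (hw : Gen w) (r : ℝ) :
    {x : ℝ | x ≤ r ∧ ∃ α : Fin 3 →₀ ℕ, x = wt w α}.Finite := by
  obtain ⟨n, hn⟩ : ∃ n : ℕ, ∀ i : Fin 3, r / w i ≤ n := by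
    obtain ⟨n0, h0⟩ := exists_nat_ge (r / w 0)
    obtain ⟨n1, h1⟩ := exists_nat_ge (r / w 1)
    obtain ⟨n2, h2⟩ := exists_nat_ge (r / w 2)
    refine ⟨n0 + n1 + n2, fun i => ?_⟩
    have p0 : (0 : ℝ) ≤ n0 := Nat.cast_nonneg _
    have p1 : (0 : ℝ) ≤ n1 := Nat.cast_nonneg _
    have p2 : (0 : ℝ) ≤ n2 := Nat.cast_nonneg _
    push_cast
    fin_cases i
    · change r / w 0 ≤ _; linarith
    · change r / w 1 ≤ _; linarith
    · change r / w 2 ≤ _; linarith
  have hfin : (Set.Icc (0 : Fin 3 →₀ ℕ) (Finsupp.equivFunOnFinite.symm fun _ => n)).Finite :=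
    Set.finite_Icc _ _
  refine (hfin.image (wt w)).subset ?_
  rintro x ⟨hx, α, rfl⟩
  refine ⟨α, ⟨zero_le, ?_⟩, rfl⟩
  intro i
  have h1 : (α i : ℝ) * w i ≤ wt w α := by
    unfold wt
    exact Finset.single_le_sum (f := fun i => (α i : ℝ) * w i)
      (fun j _ => mul_nonneg (Nat.cast_nonneg _) (hw.pos j).le) (Finset.mem_univ i)
  have h2 : (α i : ℝ) ≤ r / w i := by
    rw [le_div_iff₀ (hw.pos i)]
    linarith
  have h3 : (α i : ℝ) ≤ n := h2.trans (hn i)
  have h4 : α i ≤ n := by exact_mod_cast h3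
  simpa using h4

/-- module DEG -/
theorem deg (hw : Gen w) : DegFacts K w where
  nn := dg_nonneg hw
  zero := dg_zero
  const := dg_const hw
  of_zero := by
    intro f hf
    refine ⟨coeff 0 f, ?_⟩
    ext ξ
    rw [coeff_C]
    split_ifs with h
    · rw [← h]
    · by_contra hc
      have h1 := wt_le_dg (w := w) (mem_support_iff.mpr hc)
      have h2 := wt_nonneg hw ξ
      exact h (hw.inj _ _ (by rw [wt_zero]; linarith))
  X' := by
    intro i
    unfold dg
    have h : (X i : MvPolynomial (Fin 3) K).support = {Finsupp.single i 1} := support_X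
    have hs : (X i : MvPolynomial (Fin 3) K).support.Nonempty := by
      rw [h]; exact Finset.singleton_nonempty _
    rw [dif_pos hs]
    simp only [h, Finset.sup'_singleton]
    unfold wt
    rw [Finset.sum_eq_single i]
    · simp
    · intro j _ hj
      rw [Finsupp.single_eq_of_ne hj]
      simp
    · intro hi
      exact absurd (Finset.mem_univ i) hi
  neg := dg_neg
  add_le := dg_add_le hw
  sub_le := by
    intro f g
    rw [sub_eq_add_neg, ← dg_neg g]
    exact dg_add_le hw f (-g)
  add_right := dg_add_right hw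
  add_left := by
    intro f g h
    rw [add_comm]
    exact dg_add_right hw g f h
  sub_left := by
    intro f g h
    rw [sub_eq_add_neg, add_comm]
    exact dg_add_right hw (-g) f (by rwa [dg_neg])
  sub_right := by
    intro f g h
    rw [sub_eq_add_neg, ← dg_neg g]
    exact dg_add_right hw f (-g) (by rwa [dg_neg])
  mul := dg_mul hw
  mul_le := by
    intro f g
    by_cases hf : f = 0
    · rw [hf, zero_mul, dg_zero, zero_add]
      exact dg_nonneg hw g
    · by_cases hg : g = 0
      · rw [hg, mul_zero, dg_zero, add_zero]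
        exact dg_nonneg hw f
      · exact (dg_mul hw f g hf hg).le
  pow := by
    intro f n
    by_cases hf : f = 0
    · subst hf
      rw [dg_zero, mul_zero]
      rcases Nat.eq_zero_or_pos n with h | h
      · subst h
        rw [pow_zero, ← C_1, dg_const hw]
      · rw [zero_pow (by omega), dg_zero]
    · induction n with
      | zero => rw [pow_zero, ← C_1, dg_const hw]; simp
      | succ n ih =>
        rw [pow_succ, dg_mul hw _ _ (pow_ne_zero n hf) hf, ih]
        push_cast
        ring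
  Cmul := dg_Cmul hw
  Cmul_le := by
    intro c f
    by_cases hc : c = 0
    · rw [hc, C_0, zero_mul, dg_zero]
      exact dg_nonneg hw f
    · exact (dg_Cmul hw c f hc).le
  sum_le := by
    intro ι s f r hr h
    classical
    induction s using Finset.induction_on with
    | empty => rw [Finset.sum_empty, dg_zero]; exact hr
    | insert a s ha ih =>
      rw [Finset.sum_insert ha]
      refine (dg_add_le hw _ _).trans (max_le (h a (Finset.mem_insert_self a s)) ?_)
      exact ih fun i hi => h i (Finset.mem_insert_of_mem hi)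
  lead := by
    intro f g hpos heq
    have hf : f ≠ 0 := by rintro rfl; rw [dg_zero] at hpos; exact lt_irrefl _ hpos
    have hg : g ≠ 0 := by rintro rfl; rw [heq, dg_zero] at hpos; exact lt_irrefl _ hpos
    obtain ⟨α, c, hc, hα, hL⟩ := lead_of_dg (w := w) hf
    obtain ⟨β, d, hd, hβ, hM⟩ := lead_of_dg (w := w) hg
    have hαβ : α = β := hw.inj _ _ (by rw [hα, hβ, heq])
    subst hαβ
    refine ⟨c / d, div_ne_zero hc hd, ?_⟩
    by_cases h0 : f - C (c / d) * g = 0
    · rw [h0, dg_zero]; exact hpos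
    · obtain ⟨ξ, h1, h2⟩ := exists_lead (w := w) h0
      rw [← h2]
      have h3 : ξ ≠ α := by
        rintro rfl
        rw [mem_support_iff, coeff_sub, coeff_C_mul, hL.2, hM.2, div_mul_cancel₀ _ hd,
          sub_self] at h1
        exact h1 rfl
      have h4 : wt w ξ ≤ dg w f := by
        rw [mem_support_iff, coeff_sub, coeff_C_mul] at h1
        by_cases h5 : coeff ξ f = 0
        · by_cases h6 : coeff ξ g = 0
          · rw [h5, h6] at h1
            simp at h1
          · rw [heq]
            exact wt_le_dg (mem_support_iff.mpr h6)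
        · exact wt_le_dg (mem_support_iff.mpr h5)
      refine lt_of_le_of_ne h4 fun h5 => h3 (hw.inj _ _ (by rw [h5, hα]))
  val := by
    intro f
    by_cases hf : f = 0
    · exact ⟨0, by rw [hf, dg_zero, wt_zero]⟩
    · obtain ⟨α, -, h2⟩ := exists_lead (w := w) hf
      exact ⟨α, h2.symm⟩
  fin := dg_fin hw
  minim := by
    intro s hs
    obtain ⟨f0, hf0⟩ := hs
    have hfin : {x : ℝ | x ≤ dg w f0 ∧ ∃ g ∈ s, x = dg w g}.Finite := by
      refine (dg_fin hw (dg w f0)).subset ?_
      rintro x ⟨h1, g, -, rfl⟩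
      refine ⟨h1, ?_⟩
      by_cases hg : g = 0
      · exact ⟨0, by rw [hg, dg_zero, wt_zero]⟩
      · obtain ⟨α, -, h2⟩ := exists_lead (w := w) hg
        exact ⟨α, h2.symm⟩
    obtain ⟨x, ⟨hx1, f, hf, hx2⟩, hmin⟩ := Set.exists_min_image _ (fun x : ℝ => x) hfin
      ⟨dg w f0, le_rfl, f0, hf0, rfl⟩
    refine ⟨f, hf, fun g hg => ?_⟩
    rw [← hx2]
    rcases le_total (dg w g) (dg w f0) with h | h
    · exact hmin (dg w g) ⟨h, g, hg, rfl⟩
    · exact hx1.trans h

end

end Pool.Agent.Lib.MP_e1f7e2_al.SU.H98
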